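import Pool.Agent.Helper77.HY.St

set_option autoImplicit false

/-!
# MP_7a9ddc_co, project HY: module KER (kernels of bipartite digraphs)
-/

namespace Pool.Agent.Helper79.HY.KER

open Pool.Agent.Helper35.PM Pool.Agent.Helper77.HY

theorem main : StKer := by
  classical
  intro V O p U
  induction hn : U.card using Nat.strong_induction_on generalizing U with
  | _ n ih =>
    intro hp
    rcases Finset.eq_empty_or_nonempty U with hU | hU
    · subst hU
      exact ⟨∅, Finset.Subset.refl _, fun h => h, by simp, by simp⟩
    · -- reachability
      let A : V → V → Prop := fun u v => u ∈ U ∧ v ∈ U ∧ v ∈ O u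
      let T : V → Finset V := fun v => U.filter fun w => Relation.ReflTransGen A v w
      obtain ⟨v, hvU, hmin⟩ := Finset.exists_min_image U (fun v => (T v).card) hU
      have hvT : v ∈ T v := Finset.mem_filter.mpr ⟨hvU, Relation.ReflTransGen.refl⟩
      have hTU : T v ⊆ U := Finset.filter_subset _ _
      have hTeq : ∀ u ∈ T v, T u = T v := by
        intro u hu
        have hu' := Finset.mem_filter.mp hu
        apply Finset.eq_of_subset_of_card_le
        · intro w hw
          have hw' := Finset.mem_filter.mp hw
          exact Finset.mem_filter.mpr ⟨hw'.1, hu'.2.trans hw'.2⟩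
        · exact hmin u hu'.1
      have hclosed : ∀ u ∈ T v, ∀ w ∈ U, w ∈ O u → w ∈ T v := by
        intro u hu w hw huw
        have hu' := Finset.mem_filter.mp hu
        exact Finset.mem_filter.mpr ⟨hw, hu'.2.tail ⟨hu'.1, hw, huw⟩⟩
      have hself : ∀ u ∈ U, u ∉ O u := fun u hu h => hp u hu u hu h rfl
      -- the first part of the kernel
      obtain ⟨K1, hK1T, hK1ne, hK1i, hK1d⟩ : ∃ K1 : Finset V, K1 ⊆ T v ∧ K1.Nonempty ∧
          (∀ u ∈ K1, ∀ w ∈ K1, w ∉ O u) ∧ ∀ u ∈ T v, u ∉ K1 → ∃ w ∈ K1, w ∈ O u := by
        by_cases hone : ∀ u ∈ T v, u = v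
        · refine ⟨{v}, Finset.singleton_subset_iff.mpr hvT, Finset.singleton_nonempty v, ?_, ?_⟩
          · intro u hu w hw
            rw [Finset.mem_singleton] at hu hw
            subst hu
            subst hw
            exact hself _ hvU
          · intro u hu hnu
            exact absurd (Finset.mem_singleton.mpr (hone u hu)) hnu
        · push Not at hone
          obtain ⟨u0, hu0, hne0⟩ := hone
          have hout : ∀ u ∈ T v, ∃ w ∈ T v, w ∈ O u := by
            intro u hu
            obtain ⟨w, hw, hwu⟩ : ∃ w ∈ T v, w ≠ u := by
              by_cases h : u = v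
              · exact ⟨u0, hu0, fun h' => hne0 (h'.trans h)⟩
              · exact ⟨v, hvT, fun h' => h h'.symm⟩
            have hwu' : w ∈ T u := by
              rw [hTeq u hu]
              exact hw
            have hreach := (Finset.mem_filter.mp hwu').2
            rcases Relation.ReflTransGen.cases_head hreach with h | ⟨w', hw', _⟩
            · exact absurd h.symm hwu
            · exact ⟨w', hclosed u hu w' hw'.2.1 hw'.2.2, hw'.2.2⟩
          refine ⟨(T v).filter fun u => p u = true, Finset.filter_subset _ _, ?_, ?_, ?_⟩
          · by_cases hpv : p v = true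
            · exact ⟨v, Finset.mem_filter.mpr ⟨hvT, hpv⟩⟩
            · obtain ⟨w, hw, hwO⟩ := hout v hvT
              refine ⟨w, Finset.mem_filter.mpr ⟨hw, ?_⟩⟩
              have h1 := hp v hvU w (hTU hw) hwO
              cases h2 : p w with
              | true => rfl
              | false =>
                exfalso
                rw [h2] at h1
                exact h1 (Bool.eq_false_iff.mpr hpv)
          · intro u hu w hw hO
            have hu' := Finset.mem_filter.mp hu
            have hw' := Finset.mem_filter.mp hw
            exact hp u (hTU hu'.1) w (hTU hw'.1) hO (hu'.2.trans hw'.2.symm)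
          · intro u hu hnu
            have hpu : p u = false := by
              cases h2 : p u with
              | true => exact absurd (Finset.mem_filter.mpr ⟨hu, h2⟩) hnu
              | false => rfl
            obtain ⟨w, hw, hwO⟩ := hout u hu
            refine ⟨w, Finset.mem_filter.mpr ⟨hw, ?_⟩, hwO⟩
            have h1 := hp u (hTU hu) w (hTU hw) hwO
            cases h2 : p w with
            | true => rfl
            | false =>
              exfalso
              rw [h2, hpu] at h1
              exact h1 rfl
      -- the rest
      let U' : Finset V := (U \ T v).filter fun u => ∀ w ∈ K1, w ∉ O u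
      have hU'U : U' ⊆ U := (Finset.filter_subset _ _).trans Finset.sdiff_subset
      have hlt : U'.card < n := by
        rw [← hn]
        apply Finset.card_lt_card
        refine ⟨hU'U, fun h => ?_⟩
        have h1 := Finset.mem_filter.mp (h hvU)
        exact (Finset.mem_sdiff.mp h1.1).2 hvT
      obtain ⟨K2, hK2U, _, hK2i, hK2d⟩ := ih U'.card hlt U' rfl
        (fun u hu w hw hO => hp u (hU'U hu) w (hU'U hw) hO)
      refine ⟨K1 ∪ K2, ?_, ?_, ?_, ?_⟩
      · exact Finset.union_subset (hK1T.trans hTU) (hK2U.trans hU'U)
      · intro _
        exact hK1ne.mono Finset.subset_union_left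
      · intro u hu w hw hO
        rcases Finset.mem_union.mp hu with h1 | h1 <;> rcases Finset.mem_union.mp hw with h2 | h2
        · exact hK1i u h1 w h2 hO
        · have h3 := Finset.mem_filter.mp (hK2U h2)
          exact (Finset.mem_sdiff.mp h3.1).2 (hclosed u (hK1T h1) w (hU'U (hK2U h2)) hO)
        · have h3 := Finset.mem_filter.mp (hK2U h1)
          exact h3.2 w h2 hO
        · exact hK2i u h1 w h2 hO
      · intro u hu hnu
        rw [Finset.mem_union, not_or] at hnu
        by_cases huT : u ∈ T v
        · obtain ⟨w, hw, hwO⟩ := hK1d u huT hnu.1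
          exact ⟨w, Finset.mem_union_left _ hw, hwO⟩
        · by_cases hu' : u ∈ U'
          · obtain ⟨w, hw, hwO⟩ := hK2d u hu' hnu.2
            exact ⟨w, Finset.mem_union_right _ hw, hwO⟩
          · have h1 : ¬ ∀ w ∈ K1, w ∉ O u := fun h =>
              hu' (Finset.mem_filter.mpr ⟨Finset.mem_sdiff.mpr ⟨hu, huT⟩, h⟩)
            push Not at h1
            obtain ⟨w, hw, hwO⟩ := h1
            exact ⟨w, Finset.mem_union_left _ hw, hwO⟩

end Pool.Agent.Helper79.HY.KER
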